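import Mathlib

/-!
# Counting embeddings into blow-ups with almost equal classes
-/

set_option autoImplicit false

namespace Pool.Agent.TH465.TT

open Filter Topology Finset

/-- the class of a vertex of the blow-up -/
noncomputable def cls (Ω : Type) [Fintype Ω] [Nonempty Ω] (n : ℕ) (v : Fin n) : Ω :=
  (Fintype.equivFin Ω).symm ⟨v.val % Fintype.card Ω, Nat.mod_lt _ Fintype.card_pos⟩

section

variable (Ω : Type) [Fintype Ω] [Nonempty Ω] [DecidableEq Ω]

/-- size of a class -/
noncomputable def csize (n : ℕ) (x : Ω) : ℕ := (univ.filter (fun v : Fin n => cls Ω n v = x)).card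

theorem csize_eq (n : ℕ) (x : Ω) : csize Ω n x = n / Fintype.card Ω +
    if (Fintype.equivFin Ω x).val % Fintype.card Ω < n % Fintype.card Ω then 1 else 0 := by
  have hpos : 0 < Fintype.card Ω := Fintype.card_pos
  rw [← Nat.count_modEq_card n hpos, Nat.count_eq_card_filter_range]
  unfold csize
  apply card_bij (fun v _ => v.val)
  · intro v hv
    rw [mem_filter] at hv ⊢
    refine ⟨mem_range.2 v.isLt, ?_⟩
    have h := hv.2
    unfold cls at h
    rw [Equiv.symm_apply_eq] at h
    rw [← h]
    simp [Nat.ModEq]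
  · intro a _ b _ h
    exact Fin.ext h
  · intro b hb
    rw [mem_filter] at hb
    refine ⟨⟨b, mem_range.1 hb.1⟩, ?_, rfl⟩
    rw [mem_filter]
    refine ⟨mem_univ _, ?_⟩
    unfold cls
    rw [Equiv.symm_apply_eq]
    apply Fin.ext
    have h := hb.2
    unfold Nat.ModEq at h
    simp only
    rw [h, Nat.mod_eq_of_lt (Fintype.equivFin Ω x).isLt]

theorem csize_lim (x : Ω) : Tendsto (fun n : ℕ => (csize Ω n x : ℝ) / n) atTop
    (𝓝 (1 / Fintype.card Ω)) := by
  have hpos : 0 < Fintype.card Ω := Fintype.card_pos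
  have hposR : (0 : ℝ) < Fintype.card Ω := by exact_mod_cast hpos
  have hinv : Tendsto (fun n : ℕ => (1 : ℝ) / n) atTop (𝓝 0) := tendsto_one_div_atTop_nhds_zero_nat
  have hlo : Tendsto (fun n : ℕ => 1 / (Fintype.card Ω : ℝ) - 1 / n) atTop
      (𝓝 (1 / Fintype.card Ω)) := by
    simpa using (tendsto_const_nhds (x := 1 / (Fintype.card Ω : ℝ))).sub hinv
  have hhi : Tendsto (fun n : ℕ => 1 / (Fintype.card Ω : ℝ) + 1 / n) atTop
      (𝓝 (1 / Fintype.card Ω)) := by
    simpa using (tendsto_const_nhds (x := 1 / (Fintype.card Ω : ℝ))).add hinv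
  refine tendsto_of_tendsto_of_tendsto_of_le_of_le' hlo hhi ?_ ?_
  · filter_upwards [eventually_gt_atTop 0] with n hn
    have hnR : (0 : ℝ) < n := by exact_mod_cast hn
    rw [le_div_iff₀ hnR, sub_mul, one_div_mul_cancel hnR.ne', csize_eq]
    have h1 : (n : ℝ) = Fintype.card Ω * (n / Fintype.card Ω : ℕ) + (n % Fintype.card Ω : ℕ) := by
      exact_mod_cast (Nat.div_add_mod n (Fintype.card Ω)).symm
    have h2 : ((n % Fintype.card Ω : ℕ) : ℝ) < Fintype.card Ω := by
      exact_mod_cast Nat.mod_lt n hpos
    have h3 : (1 : ℝ) / Fintype.card Ω * n ≤ (n / Fintype.card Ω : ℕ) + 1 := by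
      rw [one_div_mul_eq_div, div_le_iff₀ hposR]
      nlinarith
    push_cast
    have h4 : (0 : ℝ) ≤ if (Fintype.equivFin Ω x).val % Fintype.card Ω < n % Fintype.card Ω
        then (1 : ℝ) else 0 := by
      split_ifs <;> norm_num
    linarith
  · filter_upwards [eventually_gt_atTop 0] with n hn
    have hnR : (0 : ℝ) < n := by exact_mod_cast hn
    rw [div_le_iff₀ hnR, add_mul, one_div_mul_cancel hnR.ne', csize_eq]
    have h1 : (n : ℝ) = Fintype.card Ω * (n / Fintype.card Ω : ℕ) + (n % Fintype.card Ω : ℕ) := by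
      exact_mod_cast (Nat.div_add_mod n (Fintype.card Ω)).symm
    have h2 : (0 : ℝ) ≤ ((n % Fintype.card Ω : ℕ) : ℝ) := by positivity
    have h3 : ((n / Fintype.card Ω : ℕ) : ℝ) ≤ (1 : ℝ) / Fintype.card Ω * n := by
      rw [one_div_mul_eq_div, le_div_iff₀ hposR]
      nlinarith
    have h4 : (if (Fintype.equivFin Ω x).val % Fintype.card Ω < n % Fintype.card Ω
        then (1 : ℝ) else 0) ≤ 1 := by
      split_ifs <;> norm_num
    push_cast
    linarith

end

theorem descFactorial_lim (k : ℕ) :
    Tendsto (fun n : ℕ => (n.descFactorial k : ℝ) / (n : ℝ) ^ k) atTop (𝓝 1) := by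
  induction k with
  | zero => simp
  | succ k ih =>
    have h1 : Tendsto (fun n : ℕ => ((n - k : ℕ) : ℝ) / n) atTop (𝓝 1) := by
      have hinv : Tendsto (fun n : ℕ => 1 - (k : ℝ) * (1 / n)) atTop (𝓝 (1 - k * 0)) :=
        tendsto_const_nhds.sub (tendsto_const_nhds.mul tendsto_one_div_atTop_nhds_zero_nat)
      rw [mul_zero, sub_zero] at hinv
      refine hinv.congr' ?_
      filter_upwards [eventually_gt_atTop k] with n hn
      have hn0 : (n : ℝ) ≠ 0 := by
        have : 0 < n := by omega
        exact_mod_cast this.ne'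
      rw [Nat.cast_sub hn.le]
      field_simp
    have h2 := h1.mul ih
    rw [one_mul] at h2
    refine h2.congr ?_
    intro n
    rw [Nat.descFactorial_succ, Nat.cast_mul, pow_succ', mul_div_mul_comm]

section

variable (Ω : Type) [Fintype Ω] [Nonempty Ω] [DecidableEq Ω]
variable (κ : Type) [Fintype κ] [DecidableEq κ]

open Classical in
/-- all maps of the blow-up into the pattern -/
theorem card_all (n : ℕ) (R : (κ → Ω) → Prop) :
    (univ.filter (fun f : κ → Fin n => R (fun i => cls Ω n (f i)))).card =
      ∑ g ∈ univ.filter R, ∏ i, csize Ω n (g i) := by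
  have hmaps : ∀ f ∈ univ.filter (fun f : κ → Fin n => R (fun i => cls Ω n (f i))),
      (fun i => cls Ω n (f i)) ∈ univ.filter R := by
    intro f hf
    rw [mem_filter] at hf ⊢
    exact ⟨mem_univ _, hf.2⟩
  rw [card_eq_sum_card_fiberwise hmaps]
  apply sum_congr rfl
  intro g hg
  rw [mem_filter] at hg
  have h1 : ((univ.filter (fun f : κ → Fin n => R (fun i => cls Ω n (f i)))).filter
      (fun f => (fun i => cls Ω n (f i)) = g)) =
      Fintype.piFinset (fun i => univ.filter (fun v : Fin n => cls Ω n v = g i)) := by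
    ext f
    simp only [mem_filter, mem_univ, true_and, Fintype.mem_piFinset]
    constructor
    · rintro ⟨-, h⟩ i
      exact congrFun h i
    · intro h
      have h' : (fun i => cls Ω n (f i)) = g := funext h
      exact ⟨by rw [h']; exact hg.2, h'⟩
  rw [h1, Fintype.card_piFinset]
  rfl

open Classical in
theorem card_all_lim (R : (κ → Ω) → Prop) :
    Tendsto (fun n : ℕ =>
      ((univ.filter (fun f : κ → Fin n => R (fun i => cls Ω n (f i)))).card : ℝ) /
        (n : ℝ) ^ Fintype.card κ) atTop
      (𝓝 (((univ.filter R).card : ℝ) / (Fintype.card Ω : ℝ) ^ Fintype.card κ)) := by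
  have h1 : Tendsto (fun n : ℕ => ∑ g ∈ univ.filter R, ∏ i : κ, ((csize Ω n (g i) : ℝ) / n)) atTop
      (𝓝 (∑ g ∈ univ.filter R, ∏ i : κ, (1 / (Fintype.card Ω : ℝ)))) := by
    apply tendsto_finsetSum
    intro g _
    apply tendsto_finsetProd
    intro i _
    exact csize_lim Ω (g i)
  have h2 : (∑ g ∈ univ.filter R, ∏ i : κ, (1 / (Fintype.card Ω : ℝ))) =
      ((univ.filter R).card : ℝ) / (Fintype.card Ω : ℝ) ^ Fintype.card κ := by
    rw [sum_const, prod_const, nsmul_eq_mul, card_univ, one_div, inv_pow, div_eq_mul_inv]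
  rw [h2] at h1
  refine h1.congr ?_
  intro n
  rw [card_all]
  push_cast
  rw [sum_div]
  apply sum_congr rfl
  intro g _
  rw [prod_div_distrib, prod_const, card_univ]

open Classical in
/-- the number of embeddings -/
theorem emb_lim (R : (κ → Ω) → Prop) :
    Tendsto (fun n : ℕ =>
      (Set.ncard {f : κ → Fin n | Function.Injective f ∧ R (fun i => cls Ω n (f i))} : ℝ) /
        (n : ℝ) ^ Fintype.card κ) atTop
      (𝓝 (((univ.filter R).card : ℝ) / (Fintype.card Ω : ℝ) ^ Fintype.card κ)) := by
  have hall := card_all_lim Ω κ R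
  have hdes : Tendsto (fun n : ℕ =>
      ((univ.filter (fun f : κ → Fin n => R (fun i => cls Ω n (f i)))).card : ℝ) /
        (n : ℝ) ^ Fintype.card κ -
        (1 - (n.descFactorial (Fintype.card κ) : ℝ) / (n : ℝ) ^ Fintype.card κ)) atTop
      (𝓝 (((univ.filter R).card : ℝ) / (Fintype.card Ω : ℝ) ^ Fintype.card κ)) := by
    have := hall.sub (tendsto_const_nhds (x := (1 : ℝ)).sub (descFactorial_lim (Fintype.card κ)))
    simpa using this
  have hset : ∀ n : ℕ,
      Set.ncard {f : κ → Fin n | Function.Injective f ∧ R (fun i => cls Ω n (f i))} =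
      ((univ.filter (fun f : κ → Fin n => R (fun i => cls Ω n (f i)))).filter
        (fun f => Function.Injective f)).card := by
    intro n
    rw [← Set.ncard_coe_finset]
    congr 1
    ext f
    simp [and_comm]
  refine tendsto_of_tendsto_of_tendsto_of_le_of_le' hdes hall ?_ ?_
  · filter_upwards [eventually_gt_atTop 0] with n hn
    have hnR : (0 : ℝ) < n := by exact_mod_cast hn
    have hpow : (0 : ℝ) < (n : ℝ) ^ Fintype.card κ := by positivity
    rw [hset]
    have hinj : (univ.filter (fun f : κ → Fin n => Function.Injective f)).card =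
        n.descFactorial (Fintype.card κ) := by
      have h := Fintype.card_embedding_eq (α := κ) (β := Fin n)
      rw [Fintype.card_fin] at h
      rw [← h, ← Fintype.card_subtype]
      exact Fintype.card_congr (Equiv.subtypeInjectiveEquivEmbedding κ (Fin n))
    have htot : (univ.filter (fun f : κ → Fin n => Function.Injective f)).card +
        (univ.filter (fun f : κ → Fin n => ¬ Function.Injective f)).card =
        n ^ Fintype.card κ := by
      rw [card_filter_add_card_filter_not, card_univ, Fintype.card_fun, Fintype.card_fin]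
    have hsplit := card_filter_add_card_filter_not
      (s := univ.filter (fun f : κ → Fin n => R (fun i => cls Ω n (f i))))
      (p := fun f => Function.Injective f)
    have hle : ((univ.filter (fun f : κ → Fin n => R (fun i => cls Ω n (f i)))).filter
        (fun f => ¬ Function.Injective f)).card ≤
        (univ.filter (fun f : κ → Fin n => ¬ Function.Injective f)).card := by
      apply card_le_card
      intro f hf
      rw [mem_filter] at hf ⊢
      exact ⟨mem_univ _, hf.2⟩
    rw [sub_le_iff_le_add, ← sub_le_iff_le_add', div_sub_div_same]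
    have e1 : (1 : ℝ) - (n.descFactorial (Fintype.card κ) : ℝ) / (n : ℝ) ^ Fintype.card κ =
        ((n : ℝ) ^ Fintype.card κ - n.descFactorial (Fintype.card κ)) /
          (n : ℝ) ^ Fintype.card κ := by
      rw [sub_div, div_self hpow.ne']
    rw [e1]
    apply div_le_div_of_nonneg_right _ hpow.le
    have e2 : ((n : ℝ) ^ Fintype.card κ) = ((n ^ Fintype.card κ : ℕ) : ℝ) := by push_cast; rfl
    rw [e2, ← htot, ← hinj, ← hsplit]
    push_cast
    have : (((univ.filter (fun f : κ → Fin n => R (fun i => cls Ω n (f i)))).filter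
        (fun f => ¬ Function.Injective f)).card : ℝ) ≤
        (univ.filter (fun f : κ → Fin n => ¬ Function.Injective f)).card := by
      exact_mod_cast hle
    linarith
  · filter_upwards with n
    rw [hset]
    apply div_le_div_of_nonneg_right _ (by positivity)
    exact_mod_cast card_filter_le _ _

end

/-- diagonal sequences -/
theorem diag (A : ℕ → ℕ → Prop) (hA : ∀ m, ∀ᶠ n in atTop, A m n) :
    ∃ M : ℕ → ℕ, Tendsto M atTop atTop ∧ ∀ᶠ n in atTop, A (M n) n := by
  have h1 : ∀ m, ∃ N, ∀ n, N ≤ n → A m n := fun m => eventually_atTop.1 (hA m)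
  choose N hN using h1
  classical
  -- the largest `m ≤ n` such that all thresholds up to `m` are at most `n`
  set good : ℕ → ℕ → Prop := fun n m => ∀ k ≤ m, N k ≤ n with hgood
  set M : ℕ → ℕ := fun n => Nat.findGreatest (good n) n with hM
  refine ⟨M, ?_, ?_⟩
  · rw [tendsto_atTop]
    intro b
    have : ∀ᶠ n in atTop, ∀ k ∈ Finset.range (b + 1), N k ≤ n := by
      rw [Filter.eventually_all_finset]
      intro k _
      exact eventually_ge_atTop _
    filter_upwards [this, eventually_ge_atTop b] with n h1 h2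
    apply Nat.le_findGreatest h2
    intro k hk
    exact h1 k (Finset.mem_range.2 (by omega))
  · filter_upwards [eventually_ge_atTop (N 0)] with n hn
    have h0 : good n 0 := by
      intro k hk
      have : k = 0 := by omega
      rw [this]
      exact hn
    have h2 : good n (M n) := Nat.findGreatest_spec (P := good n) (Nat.zero_le n) h0
    exact hN _ _ (h2 _ le_rfl)

end Pool.Agent.TH465.TT
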