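import Mathlib

/-!
# Homomorphism counts into complete graphs and their tensor powers
-/

set_option autoImplicit false

namespace Pool.Agent.TH465.TT

open Finset

open Classical in
/-- number of proper colourings of the pattern `E` with `M` colours -/
noncomputable def cnt {κ : Type} [Fintype κ] [DecidableEq κ] (E : κ → κ → Prop) (M : ℕ) : ℕ :=
  (univ.filter (fun h : κ → Fin M => ∀ i j, E i j → h i ≠ h j)).card

open Classical in
theorem card_power {κ : Type} [Fintype κ] [DecidableEq κ] (E : κ → κ → Prop) (M D : ℕ) :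
    (univ.filter (fun g : κ → (Fin D → Fin M) => ∀ i j, E i j → ∀ d, g i d ≠ g j d)).card =
      cnt E M ^ D := by
  have h1 : (Fintype.piFinset (fun _ : Fin D =>
      univ.filter (fun h : κ → Fin M => ∀ i j, E i j → h i ≠ h j))).card = cnt E M ^ D := by
    rw [Fintype.card_piFinset, prod_const, card_univ, Fintype.card_fin]
    rfl
  rw [← h1]
  apply card_bij' (fun g _ => fun d i => g i d) (fun h _ => fun i d => h d i)
  · intro g hg
    simp only [mem_filter, mem_univ, true_and, Fintype.mem_piFinset] at hg ⊢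
    intro d i j hij
    exact hg i j hij d
  · intro h hh
    simp only [mem_filter, mem_univ, true_and, Fintype.mem_piFinset] at hh ⊢
    intro i j hij d
    exact hh d i j hij
  · intro g _
    rfl
  · intro h _
    rfl

/-- complete patterns -/
theorem cnt_top (k M : ℕ) : cnt (fun i j : Fin k => i ≠ j) M = M.descFactorial k := by
  classical
  unfold cnt
  have h := Fintype.card_embedding_eq (α := Fin k) (β := Fin M)
  rw [Fintype.card_fin, Fintype.card_fin] at h
  rw [← h, ← Fintype.card_congr (Equiv.subtypeInjectiveEquivEmbedding (Fin k) (Fin M)),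
    Fintype.card_subtype]
  congr 1
  ext f
  simp only [mem_filter, mem_univ, true_and]
  constructor
  · intro h i j hij
    by_contra hne
    exact h i j hne hij
  · intro h i j hij he
    exact hij (h he)

open Classical in
theorem cnt_bip (s t M : ℕ) :
    cnt (completeBipartiteGraph (Fin s) (Fin t)).Adj M =
      ∑ x : Fin s → Fin M, (univ.filter (fun v : Fin M => ∀ i, x i ≠ v)).card ^ t := by
  have h1 : ∀ x : Fin s → Fin M, (univ.filter (fun v : Fin M => ∀ i, x i ≠ v)).card ^ t =
      (Fintype.piFinset (fun _ : Fin t => univ.filter (fun v : Fin M => ∀ i, x i ≠ v))).card := by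
    intro x
    rw [Fintype.card_piFinset, prod_const, card_univ, Fintype.card_fin]
  rw [sum_congr rfl (fun x _ => h1 x), ← card_sigma]
  unfold cnt
  apply card_bij' (fun h _ => (⟨fun i => h (Sum.inl i), fun j => h (Sum.inr j)⟩ :
      (_ : Fin s → Fin M) × (Fin t → Fin M))) (fun p _ => Sum.elim p.1 p.2)
  · intro h hh
    simp only [mem_filter, mem_univ, true_and, mem_sigma, Fintype.mem_piFinset] at hh ⊢
    intro j i
    exact hh _ _ (by simp)
  · intro p hp
    simp only [mem_filter, mem_univ, true_and, mem_sigma, Fintype.mem_piFinset] at hp ⊢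
    rintro (i | i) (j | j) hij
    · simp at hij
    · exact hp j i
    · exact (hp i j).symm
    · simp at hij
  · intro h _
    funext i
    rcases i with i | i <;> rfl
  · intro p _
    rfl

open Classical in
theorem avoid_card {s M : ℕ} (x : Fin s → Fin M) :
    (univ.filter (fun v : Fin M => ∀ i, x i ≠ v)).card = M - (univ.image x).card := by
  have h : univ.filter (fun v : Fin M => ∀ i, x i ≠ v) = (univ.image x)ᶜ := by
    ext v
    simp
  rw [h, card_compl, Fintype.card_fin]

theorem cycle_eq : ∀ i j : Fin 3, (SimpleGraph.cycleGraph 3).Adj i j ↔ i ≠ j := by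
  decide

theorem cycle4_eq : ∀ i j : Fin 4, (SimpleGraph.cycleGraph 4).Adj i j ↔
    (i = j + 1 ∨ j = i + 1) := by
  decide

theorem cnt_C4 (M : ℕ) : cnt (SimpleGraph.cycleGraph 4).Adj M =
    cnt (completeBipartiteGraph (Fin 2) (Fin 2)).Adj M := by
  classical
  unfold cnt
  apply card_bij' (fun h _ => Sum.elim ![h 0, h 2] ![h 1, h 3])
    (fun p _ => ![p (Sum.inl 0), p (Sum.inr 0), p (Sum.inl 1), p (Sum.inr 1)])
  · intro h hh
    simp only [mem_filter, mem_univ, true_and] at hh ⊢
    have h01 := hh 0 1 (by rw [cycle4_eq]; decide)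
    have h12 := hh 1 2 (by rw [cycle4_eq]; decide)
    have h23 := hh 2 3 (by rw [cycle4_eq]; decide)
    have h30 := hh 3 0 (by rw [cycle4_eq]; decide)
    rintro (i | i) (j | j) hij
    · simp at hij
    · fin_cases i <;> fin_cases j
      · exact h01
      · exact h30.symm
      · exact h12.symm
      · exact h23
    · fin_cases i <;> fin_cases j
      · exact h01.symm
      · exact h12
      · exact h30
      · exact h23.symm
    · simp at hij
  · intro p hp
    simp only [mem_filter, mem_univ, true_and] at hp ⊢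
    have a := hp (Sum.inl 0) (Sum.inr 0) (by simp)
    have b := hp (Sum.inl 0) (Sum.inr 1) (by simp)
    have c := hp (Sum.inl 1) (Sum.inr 0) (by simp)
    have d := hp (Sum.inl 1) (Sum.inr 1) (by simp)
    intro i j hij
    rw [cycle4_eq] at hij
    fin_cases i <;> fin_cases j <;> first
      | exact a
      | exact a.symm
      | exact b
      | exact b.symm
      | exact c
      | exact c.symm
      | exact d
      | exact d.symm
      | (exfalso; revert hij; decide)
  · intro h _
    funext i
    fin_cases i <;> rfl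
  · intro p _
    funext i
    rcases i with i | i <;> fin_cases i <;> rfl

theorem cnt_C4_val (m : ℕ) : (cnt (SimpleGraph.cycleGraph 4).Adj (m + 2) : ℝ) =
    (m + 2) * (m + 1) ^ 2 + (m + 2) * (m + 1) * m ^ 2 := by
  classical
  rw [cnt_C4, cnt_bip]
  have h1 : ∀ x : Fin 2 → Fin (m + 2),
      (univ.filter (fun v : Fin (m + 2) => ∀ i, x i ≠ v)).card ^ 2 =
      if Function.Injective x then m ^ 2 else (m + 1) ^ 2 := by
    intro x
    rw [avoid_card]
    split_ifs with h
    · rw [card_image_of_injective _ h, card_univ, Fintype.card_fin]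
      simp
    · have h2 : univ.image x = {x 0} := by
        have h3 : x 0 = x 1 := by
          by_contra hne
          apply h
          intro a b hab
          fin_cases a <;> fin_cases b
          · rfl
          · exact absurd hab hne
          · exact absurd hab.symm hne
          · rfl
        ext v
        simp only [mem_image, mem_univ, true_and, mem_singleton]
        constructor
        · rintro ⟨a, rfl⟩
          fin_cases a
          · rfl
          · exact h3.symm
        · intro hv
          exact ⟨0, hv.symm⟩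
      rw [h2, card_singleton]
      congr 1
  rw [sum_congr rfl (fun x _ => h1 x), sum_ite, sum_const, sum_const]
  have hinj : (univ.filter (fun f : Fin 2 → Fin (m + 2) => Function.Injective f)).card =
      (m + 2).descFactorial 2 := by
    have h := Fintype.card_embedding_eq (α := Fin 2) (β := Fin (m + 2))
    rw [Fintype.card_fin, Fintype.card_fin] at h
    rw [← h, ← Fintype.card_subtype]
    exact Fintype.card_congr (Equiv.subtypeInjectiveEquivEmbedding (Fin 2) (Fin (m + 2)))
  have htot : (univ.filter (fun f : Fin 2 → Fin (m + 2) => Function.Injective f)).card +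
      (univ.filter (fun f : Fin 2 → Fin (m + 2) => ¬ Function.Injective f)).card =
      (m + 2) ^ 2 := by
    rw [card_filter_add_card_filter_not, card_univ, Fintype.card_fun, Fintype.card_fin,
      Fintype.card_fin]
  have hd : (m + 2).descFactorial 2 = (m + 2) * (m + 1) := by
    simp [Nat.descFactorial_succ, mul_comm]
  rw [hinj, hd] at htot
  have hn : (univ.filter (fun f : Fin 2 → Fin (m + 2) => ¬ Function.Injective f)).card =
      m + 2 := by
    have : (m + 2) ^ 2 = (m + 2) * (m + 1) + (m + 2) := by ring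
    omega
  rw [hinj, hn, hd]
  simp only [smul_eq_mul]
  push_cast
  ring

/-- a convexity bound -/
theorem pow_le_lin (k : ℕ) (u : ℝ) (h0 : 0 ≤ u) (h1 : u ≤ 1) :
    (1 + u) ^ k ≤ 1 + (2 ^ k - 1) * u := by
  induction k with
  | zero => simp
  | succ k ih =>
    have hk : (1 : ℝ) ≤ 2 ^ k := one_le_pow₀ (by norm_num)
    have h2 : (1 + u) ^ (k + 1) ≤ (1 + (2 ^ k - 1) * u) * (1 + u) := by
      rw [pow_succ]
      exact mul_le_mul_of_nonneg_right ih (by linarith)
    have h3 : u * u ≤ u := by nlinarith
    have h4 : (1 + (2 ^ k - 1) * u) * (1 + u) ≤ 1 + (2 ^ (k + 1) - 1) * u := by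
      rw [pow_succ]
      nlinarith
    exact h2.trans h4

/-- the number of non-injective maps -/
theorem noninj_le (s m : ℕ) (hs : 1 ≤ s) :
    ((m + 2 : ℝ)) ^ s - ((m + 2).descFactorial s : ℝ) ≤
      (m + 2 : ℝ) ^ s * (s ^ 2 / (m + 1)) := by
  have hM : (0 : ℝ) < m + 2 := by positivity
  by_cases hsm : s ≤ m + 2
  · have h1 : ((m + 2 + 1 - s : ℕ) : ℝ) ^ s ≤ ((m + 2).descFactorial s : ℝ) := by
      exact_mod_cast Nat.pow_sub_le_descFactorial (m + 2) s
    have h2 : ((m + 2 + 1 - s : ℕ) : ℝ) = (m + 2) * (1 + (-((s - 1 : ℝ) / (m + 2)))) := by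
      rw [Nat.cast_sub (by omega)]
      push_cast
      field_simp
      ring
    have h3 : 1 + (s : ℝ) * (-((s - 1 : ℝ) / (m + 2))) ≤ (1 + (-((s - 1 : ℝ) / (m + 2)))) ^ s := by
      apply one_add_mul_le_pow
      have : (s - 1 : ℝ) / (m + 2) ≤ 1 := by
        rw [div_le_one hM]
        have : (s : ℝ) ≤ m + 2 := by exact_mod_cast hsm
        linarith
      linarith
    rw [h2, mul_pow] at h1
    have h4 : (m + 2 : ℝ) ^ s * (1 + (s : ℝ) * (-((s - 1 : ℝ) / (m + 2)))) ≤
        ((m + 2).descFactorial s : ℝ) :=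
      (mul_le_mul_of_nonneg_left h3 (by positivity)).trans h1
    have h5 : (s : ℝ) * ((s - 1 : ℝ) / (m + 2)) ≤ s ^ 2 / (m + 1) := by
      rw [mul_div_assoc', div_le_div_iff₀ hM (by positivity)]
      have hs1 : (1 : ℝ) ≤ s := by exact_mod_cast hs
      have hm0 : (0 : ℝ) ≤ m := by positivity
      nlinarith [mul_nonneg (mul_nonneg (by linarith : (0 : ℝ) ≤ s) (by linarith : (0 : ℝ) ≤ s)) hm0]
    have h6 : (m + 2 : ℝ) ^ s * ((s : ℝ) * ((s - 1 : ℝ) / (m + 2))) ≤
        (m + 2 : ℝ) ^ s * (s ^ 2 / (m + 1)) := mul_le_mul_of_nonneg_left h5 (by positivity)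
    nlinarith
  · push Not at hsm
    have h1 : (1 : ℝ) ≤ s ^ 2 / (m + 1) := by
      rw [le_div_iff₀ (by positivity)]
      have h2 : (m + 2 : ℝ) < s := by exact_mod_cast hsm
      have hm0 : (0 : ℝ) ≤ m := by positivity
      nlinarith
    have h2 : (0 : ℝ) ≤ ((m + 2).descFactorial s : ℝ) := by positivity
    have h3 : (m + 2 : ℝ) ^ s * 1 ≤ (m + 2 : ℝ) ^ s * (s ^ 2 / (m + 1)) :=
      mul_le_mul_of_nonneg_left h1 (by positivity)
    linarith

/-- The bound for complete bipartite patterns. -/
theorem cnt_bip_le (s t m : ℕ) (hs : 1 ≤ s) :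
    (cnt (completeBipartiteGraph (Fin s) (Fin t)).Adj (m + 2) : ℝ) /
      ((m + 2 : ℝ) ^ (s + t) * ((m + 1 : ℝ) / (m + 2)) ^ (s * t)) ≤
      1 + (s ^ 2 * 2 ^ (s * t)) * (1 / (m + 1 : ℝ)) ^ 2 := by
  classical
  have hM : (0 : ℝ) < m + 2 := by positivity
  set q : ℝ := (m + 1 : ℝ) / (m + 2) with hq
  have hq0 : 0 < q := by positivity
  have hq1 : q ≤ 1 := by
    rw [hq, div_le_one hM]
    linarith
  set u : ℝ := 1 / (m + 1 : ℝ) with hu
  have hu0 : 0 ≤ u := by positivity
  have hu1 : u ≤ 1 := by
    rw [hu, div_le_one (by positivity)]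
    have : (0 : ℝ) ≤ m := by positivity
    linarith
  have hqu : q * (1 + u) = 1 := by
    rw [hq, hu]
    field_simp
    ring
  -- the sum
  rw [cnt_bip]
  have hterm : ∀ x : Fin s → Fin (m + 2),
      (((univ.filter (fun v : Fin (m + 2) => ∀ i, x i ≠ v)).card ^ t : ℕ) : ℝ) ≤
      if Function.Injective x then ((m + 2) * q ^ s) ^ t else ((m + 2) * q) ^ t := by
    intro x
    rw [avoid_card]
    push_cast
    split_ifs with h
    · rw [card_image_of_injective _ h, card_univ, Fintype.card_fin]
      apply pow_le_pow_left₀ (by positivity)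
      have h3 : 1 + (s : ℝ) * (-(1 / (m + 2 : ℝ))) ≤ (1 + (-(1 / (m + 2 : ℝ)))) ^ s := by
        apply one_add_mul_le_pow
        have : 1 / (m + 2 : ℝ) ≤ 1 := by
          rw [div_le_one hM]
          have : (0 : ℝ) ≤ m := by positivity
          linarith
        linarith
      have h4 : (1 + (-(1 / (m + 2 : ℝ)))) = q := by
        rw [hq]
        field_simp
        ring
      rw [h4] at h3
      by_cases hsm : s ≤ m + 2
      · rw [Nat.cast_sub hsm]
        push_cast
        have : (m + 2 : ℝ) * (1 + (s : ℝ) * (-(1 / (m + 2 : ℝ)))) = m + 2 - s := by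
          field_simp
          ring
        rw [← this]
        exact mul_le_mul_of_nonneg_left h3 hM.le
      · rw [Nat.sub_eq_zero_of_le (by omega)]
        simp only [Nat.cast_zero]
        positivity
    · apply pow_le_pow_left₀ (by positivity)
      have h5 : 1 ≤ (univ.image x).card := by
        rw [Nat.succ_le_iff, card_pos]
        exact ⟨x ⟨0, hs⟩, mem_image_of_mem _ (mem_univ _)⟩
      have h6 : (m + 2 : ℝ) * q = m + 1 := by
        rw [hq]
        field_simp
      rw [h6]
      have h7 : m + 2 - (univ.image x).card ≤ m + 1 := by omega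
      exact_mod_cast h7
  have hinj : (univ.filter (fun f : Fin s → Fin (m + 2) => Function.Injective f)).card =
      (m + 2).descFactorial s := by
    have h := Fintype.card_embedding_eq (α := Fin s) (β := Fin (m + 2))
    rw [Fintype.card_fin, Fintype.card_fin] at h
    rw [← h, ← Fintype.card_subtype]
    exact Fintype.card_congr (Equiv.subtypeInjectiveEquivEmbedding (Fin s) (Fin (m + 2)))
  have htot : (univ.filter (fun f : Fin s → Fin (m + 2) => Function.Injective f)).card +
      (univ.filter (fun f : Fin s → Fin (m + 2) => ¬ Function.Injective f)).card =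
      (m + 2) ^ s := by
    rw [card_filter_add_card_filter_not, card_univ, Fintype.card_fun, Fintype.card_fin,
      Fintype.card_fin]
  set I : ℝ := ((univ.filter (fun f : Fin s → Fin (m + 2) => Function.Injective f)).card : ℝ)
    with hI
  set N : ℝ := ((univ.filter (fun f : Fin s → Fin (m + 2) => ¬ Function.Injective f)).card : ℝ)
    with hN
  have hIN : I + N = (m + 2 : ℝ) ^ s := by
    rw [hI, hN]
    exact_mod_cast htot
  have hNle : N ≤ (m + 2 : ℝ) ^ s * (s ^ 2 / (m + 1)) := by
    have h1 := noninj_le s m hs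
    have h2 : N = (m + 2 : ℝ) ^ s - ((m + 2).descFactorial s : ℝ) := by
      rw [← hIN, hI, hinj]
      ring
    rw [h2]
    exact h1
  have hN0 : 0 ≤ N := by positivity
  have hsum : ((∑ x : Fin s → Fin (m + 2),
      (univ.filter (fun v : Fin (m + 2) => ∀ i, x i ≠ v)).card ^ t : ℕ) : ℝ) ≤
      I * ((m + 2) * q ^ s) ^ t + N * ((m + 2) * q) ^ t := by
    rw [Nat.cast_sum]
    refine (sum_le_sum (fun x _ => hterm x)).trans ?_
    rw [sum_ite, sum_const, sum_const, nsmul_eq_mul, nsmul_eq_mul]
  rw [div_le_iff₀ (by positivity)]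
  refine hsum.trans ?_
  have e1 : ((m + 2 : ℝ) * q ^ s) ^ t = (m + 2) ^ t * q ^ (s * t) := by
    rw [mul_pow, ← pow_mul]
  have e2 : ((m + 2 : ℝ) * q) ^ t ≤ ((m + 2) ^ t * q ^ (s * t)) * (1 + (2 ^ (s * t)) * u) := by
    have h1 : ((m + 2 : ℝ) * q) ^ t = ((m + 2) ^ t * q ^ (s * t)) * (1 + u) ^ ((s - 1) * t) := by
      have h2 : q ^ (s * t) = q ^ t * q ^ ((s - 1) * t) := by
        rw [← pow_add]
        congr 1
        obtain ⟨s', rfl⟩ : ∃ s', s = s' + 1 := ⟨s - 1, by omega⟩
        simp only [Nat.add_sub_cancel]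
        ring
      rw [h2, mul_pow]
      have h3 : q ^ ((s - 1) * t) * (1 + u) ^ ((s - 1) * t) = 1 := by
        rw [← mul_pow, hqu, one_pow]
      calc (m + 2 : ℝ) ^ t * q ^ t = (m + 2 : ℝ) ^ t * q ^ t * 1 := by ring
        _ = (m + 2 : ℝ) ^ t * q ^ t * (q ^ ((s - 1) * t) * (1 + u) ^ ((s - 1) * t)) := by rw [h3]
        _ = _ := by ring
    rw [h1]
    apply mul_le_mul_of_nonneg_left _ (by positivity)
    refine (pow_le_lin _ u hu0 hu1).trans ?_
    have h4 : (2 : ℝ) ^ ((s - 1) * t) ≤ 2 ^ (s * t) := by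
      apply pow_le_pow_right₀ (by norm_num)
      exact Nat.mul_le_mul_right _ (Nat.sub_le _ _)
    nlinarith
  have e3 : N ≤ (m + 2 : ℝ) ^ s * (s ^ 2 * u) := by
    refine hNle.trans (le_of_eq ?_)
    rw [hu]
    ring
  set W : ℝ := (m + 2) ^ t * q ^ (s * t) with hW
  have hW0 : 0 ≤ W := by positivity
  rw [e1]
  have e4 : I * W + N * ((m + 2) * q) ^ t ≤ I * W + N * (W * (1 + (2 ^ (s * t)) * u)) := by
    have := mul_le_mul_of_nonneg_left e2 hN0
    linarith
  refine e4.trans ?_
  have e5 : I * W + N * (W * (1 + (2 ^ (s * t)) * u)) =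
      (m + 2 : ℝ) ^ s * W + N * (W * ((2 ^ (s * t)) * u)) := by
    rw [← hIN]
    ring
  rw [e5]
  have e6 : N * (W * ((2 ^ (s * t)) * u)) ≤
      ((m + 2 : ℝ) ^ s * (s ^ 2 * u)) * (W * ((2 ^ (s * t)) * u)) :=
    mul_le_mul_of_nonneg_right e3 (by positivity)
  refine (add_le_add_right e6 _).trans (le_of_eq ?_)
  rw [hW, pow_add]
  ring

end Pool.Agent.TH465.TT
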