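import Mathlib
import Pool.Agent.TH465.TT.Blow
import Pool.Agent.TH465.TT.Count

/-!
# Limits of normalised counts in blow-ups of tensor powers of complete graphs
-/

set_option autoImplicit false

namespace Pool.Agent.TH465.TT

open Filter Topology Finset

/-- vertices of the tensor power -/
abbrev Om (m : ℕ) : Type := Fin ((m + 1) ^ 2) → Fin (m + 2)

/-- the blow-up of the `(m+1)^2`-th tensor power of `K_{m+2}` -/
def Gr (m n : ℕ) : SimpleGraph (Fin n) where
  Adj u v := ∀ d, cls (Om m) n u d ≠ cls (Om m) n v d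
  symm := ⟨fun _ _ h d => (h d).symm⟩
  loopless := ⟨fun _ h => h ⟨0, by positivity⟩ rfl⟩

/-- the density -/
noncomputable def P (m : ℕ) : ℝ := ((m + 1 : ℝ) / (m + 2)) ^ ((m + 1) ^ 2)

theorem P_pos (m : ℕ) : 0 < P m := by
  unfold P
  positivity

theorem P_le_one (m : ℕ) : P m ≤ 1 := by
  unfold P
  apply pow_le_one₀ (by positivity)
  rw [div_le_one (by positivity)]
  linarith

section

variable {κ : Type} [Fintype κ] [DecidableEq κ]

/-- the normalised count -/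
noncomputable def sp (m : ℕ) (E : κ → κ → Prop) (k e n : ℕ) : ℝ :=
  (Set.ncard {f : κ → Fin n | Function.Injective f ∧
    ∀ i j, E i j → (Gr m n).Adj (f i) (f j)} : ℝ) / ((n.descFactorial k : ℝ) * P m ^ e)

/-- the limit value -/
noncomputable def tv (m : ℕ) (E : κ → κ → Prop) (k e : ℕ) : ℝ :=
  ((cnt E (m + 2) : ℝ) / ((m + 2 : ℝ) ^ k * ((m + 1 : ℝ) / (m + 2)) ^ e)) ^ ((m + 1) ^ 2)

theorem sp_lim (m : ℕ) (E : κ → κ → Prop) (k e : ℕ) (hk : Fintype.card κ = k) :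
    Tendsto (fun n : ℕ => sp m E k e n) atTop (𝓝 (tv m E k e)) := by
  classical
  subst hk
  have h1 : Tendsto (fun n : ℕ =>
      (Set.ncard {f : κ → Fin n | Function.Injective f ∧
        ∀ i j, E i j → ∀ d, cls (Om m) n (f i) d ≠ cls (Om m) n (f j) d} : ℝ) /
        (n : ℝ) ^ Fintype.card κ) atTop
      (𝓝 (((cnt E (m + 2) ^ ((m + 1) ^ 2) : ℕ) : ℝ) /
        (Fintype.card (Om m) : ℝ) ^ Fintype.card κ)) := by
    have h0 := emb_lim (Om m) κ (fun g => ∀ i j, E i j → ∀ d, g i d ≠ g j d)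
    rw [← card_power]
    convert h0
  have h2 := h1.div ((descFactorial_lim (Fintype.card κ)).mul
    (tendsto_const_nhds (x := P m ^ e))) (by
      rw [one_mul]
      exact (pow_pos (P_pos m) e).ne')
  have hval : ((cnt E (m + 2) ^ ((m + 1) ^ 2) : ℕ) : ℝ) /
      (Fintype.card (Om m) : ℝ) ^ Fintype.card κ / (1 * P m ^ e) =
      tv m E (Fintype.card κ) e := by
    have hc : (Fintype.card (Om m) : ℝ) = (m + 2 : ℝ) ^ ((m + 1) ^ 2) := by
      rw [Fintype.card_fun, Fintype.card_fin, Fintype.card_fin]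
      push_cast
      rfl
    have e1 : (Fintype.card (Om m) : ℝ) ^ Fintype.card κ =
        ((m + 2 : ℝ) ^ Fintype.card κ) ^ ((m + 1) ^ 2) := by
      rw [hc, ← pow_mul, ← pow_mul, mul_comm]
    have e2 : P m ^ e = (((m + 1 : ℝ) / (m + 2)) ^ e) ^ ((m + 1) ^ 2) := by
      unfold P
      rw [← pow_mul, ← pow_mul, mul_comm]
    unfold tv
    rw [one_mul, div_div, e1, e2, ← mul_pow, Nat.cast_pow, ← div_pow]
  rw [hval] at h2
  refine h2.congr' ?_
  filter_upwards [eventually_gt_atTop 0] with n hn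
  have hnR : (0 : ℝ) < n := by exact_mod_cast hn
  have hpow : (n : ℝ) ^ Fintype.card κ ≠ 0 := by positivity
  unfold sp
  have hset : {f : κ → Fin n | Function.Injective f ∧
      ∀ i j, E i j → ∀ d, cls (Om m) n (f i) d ≠ cls (Om m) n (f j) d} =
      {f : κ → Fin n | Function.Injective f ∧ ∀ i j, E i j → (Gr m n).Adj (f i) (f j)} := rfl
  rw [Pi.div_apply, hset, div_mul_eq_mul_div, div_div_div_cancel_right₀ hpow]

end

theorem tv_K2 (m : ℕ) : tv m (⊤ : SimpleGraph (Fin 2)).Adj 2 1 = 1 := by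
  unfold tv
  have h : (⊤ : SimpleGraph (Fin 2)).Adj = (fun i j : Fin 2 => i ≠ j) := by
    funext i j
    simp
  rw [h, cnt_top]
  have hd : (m + 2).descFactorial 2 = (m + 2) * (m + 1) := by
    simp [Nat.descFactorial_succ, mul_comm]
  rw [hd]
  push_cast
  have : ((m + 2 : ℝ) * (m + 1)) / ((m + 2) ^ 2 * ((m + 1 : ℝ) / (m + 2)) ^ 1) = 1 := by
    field_simp
  rw [this, one_pow]

theorem tv_C3 (m : ℕ) : tv m (SimpleGraph.cycleGraph 3).Adj 3 3 ≤ Real.exp (-1) := by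
  unfold tv
  have h : (SimpleGraph.cycleGraph 3).Adj = (fun i j : Fin 3 => i ≠ j) := by
    funext i j
    exact propext (cycle_eq i j)
  rw [h, cnt_top]
  have hd : (m + 2).descFactorial 3 = (m + 2) * (m + 1) * m := by
    simp [Nat.descFactorial_succ]
    ring
  rw [hd]
  push_cast
  have h1 : ((m + 2 : ℝ) * (m + 1) * m) / ((m + 2) ^ 3 * ((m + 1 : ℝ) / (m + 2)) ^ 3) =
      -(1 / (m + 1) ^ 2) + 1 := by
    field_simp
    ring
  rw [h1]
  have h2 : -(1 / (m + 1 : ℝ) ^ 2) + 1 ≤ Real.exp (-(1 / (m + 1 : ℝ) ^ 2)) :=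
    Real.add_one_le_exp _
  have h3 : (0 : ℝ) ≤ -(1 / (m + 1 : ℝ) ^ 2) + 1 := by
    have : 1 / (m + 1 : ℝ) ^ 2 ≤ 1 := by
      rw [div_le_one (by positivity)]
      have : (0 : ℝ) ≤ m := by positivity
      nlinarith
    linarith
  refine (pow_le_pow_left₀ h3 h2 _).trans (le_of_eq ?_)
  rw [← Real.exp_nat_mul]
  congr 1
  push_cast
  field_simp

theorem tv_C4 (m : ℕ) : 1 ≤ tv m (SimpleGraph.cycleGraph 4).Adj 4 4 ∧
    tv m (SimpleGraph.cycleGraph 4).Adj 4 4 ≤ Real.exp (1 / (m + 1)) := by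
  unfold tv
  rw [cnt_C4_val]
  have h1 : ((m + 2 : ℝ) * (m + 1) ^ 2 + (m + 2) * (m + 1) * m ^ 2) /
      ((m + 2) ^ 4 * ((m + 1 : ℝ) / (m + 2)) ^ 4) = 1 / (m + 1) ^ 3 + 1 := by
    field_simp
    ring
  rw [h1]
  constructor
  · apply one_le_pow₀
    have : (0 : ℝ) ≤ 1 / (m + 1) ^ 3 := by positivity
    linarith
  · have h2 : 1 / (m + 1 : ℝ) ^ 3 + 1 ≤ Real.exp (1 / (m + 1 : ℝ) ^ 3) := Real.add_one_le_exp _
    refine (pow_le_pow_left₀ (by positivity) h2 _).trans (le_of_eq ?_)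
    rw [← Real.exp_nat_mul]
    congr 1
    push_cast
    field_simp

theorem tv_bip (s t m : ℕ) (hs : 1 ≤ s) :
    tv m (completeBipartiteGraph (Fin s) (Fin t)).Adj (s + t) (s * t) ≤
      Real.exp (s ^ 2 * 2 ^ (s * t)) := by
  unfold tv
  have h1 := cnt_bip_le s t m hs
  have h2 : 1 + (s ^ 2 * 2 ^ (s * t)) * (1 / (m + 1 : ℝ)) ^ 2 ≤
      Real.exp ((s ^ 2 * 2 ^ (s * t)) * (1 / (m + 1 : ℝ)) ^ 2) := by
    rw [add_comm]
    exact Real.add_one_le_exp _
  refine (pow_le_pow_left₀ (by positivity) (h1.trans h2) _).trans (le_of_eq ?_)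
  rw [← Real.exp_nat_mul]
  congr 1
  push_cast
  field_simp

/-- the density condition for a fixed power -/
theorem dens_lim (s : ℕ) (hs : 2 ≤ s) (a : ℝ) (c : ℝ) (hc : 0 < c) :
    Tendsto (fun n : ℕ => c / ((Real.log n) ^ a * (n : ℝ) ^ (-(1 / (s : ℝ))))) atTop atTop := by
  have hs0 : (0 : ℝ) < 1 / (s : ℝ) := by
    have : (0 : ℝ) < s := by
      have : 0 < s := by omega
      exact_mod_cast this
    positivity
  have h1 : Tendsto (fun x : ℝ => Real.log x ^ a / x ^ (1 / (s : ℝ))) atTop (𝓝 0) :=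
    (isLittleO_log_rpow_rpow_atTop a hs0).tendsto_div_nhds_zero
  have h2 : Tendsto (fun n : ℕ => Real.log n ^ a / (n : ℝ) ^ (1 / (s : ℝ))) atTop (𝓝 0) :=
    h1.comp tendsto_natCast_atTop_atTop
  have h3 : Tendsto (fun n : ℕ => (Real.log n) ^ a * (n : ℝ) ^ (-(1 / (s : ℝ)))) atTop
      (𝓝[>] 0) := by
    rw [tendsto_nhdsWithin_iff]
    constructor
    · refine h2.congr ?_
      intro n
      rw [Real.rpow_neg (by positivity), div_eq_mul_inv]
    · filter_upwards [eventually_gt_atTop 1] with n hn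
      have hn1 : (1 : ℝ) < n := by exact_mod_cast hn
      exact mul_pos (Real.rpow_pos_of_pos (Real.log_pos hn1) _)
        (Real.rpow_pos_of_pos (by linarith) _)
  have h4 := (h3.inv_tendsto_nhdsGT_zero).const_mul_atTop hc
  refine h4.congr ?_
  intro n
  simp [div_eq_mul_inv]

end Pool.Agent.TH465.TT
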